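import Pool.Agent.Q148.LadderIdx

set_option autoImplicit false

namespace Pool.Agent.Results.MP_41e59e_gt.NoSuitable

open Pool.Agent.Q148.Ladder

/-- There is a totally disconnected linearly ordered abelian topological group (order topology, order
compatible with the group operation), of uncountable density and uncountable pseudocharacter,
without a suitable set (in particular without a closed suitable set). -/
theorem result :
    ∃ (G : Type) (_ : AddCommGroup G) (_ : LinearOrder G) (_ : IsOrderedAddMonoid G)
      (_ : TopologicalSpace G) (_ : OrderTopology G),
      IsTopologicalAddGroup G ∧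
      TotallyDisconnectedSpace G ∧
      ¬ TopologicalSpace.SeparableSpace G ∧
      (∀ x : G, ¬ IsGδ ({x} : Set G)) ∧
      ¬ ∃ S : Set G, IsSuitable S :=
  ⟨LO W1, inferInstance, inferInstance, inferInstance, inferInstance, inferInstance,
    inferInstance, LO.totallyDisconnected regIdx_W1, LO.not_separable regIdx_W1,
    LO.not_isGδ regIdx_W1, fun ⟨S, hS⟩ => LO.no_suitable regIdx_W1 S hS⟩

end Pool.Agent.Results.MP_41e59e_gt.NoSuitable
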